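import Mathlib
import Pool.Agent.H3.PlaneB

set_option autoImplicit false
open Finset Filter Topology Configuration Pool.Agent.H3.Plane

namespace Pool.Agent.Results.MP_4388f3_co.LogConv

/-- A finite bipartite graph with labelled classes. -/
structure BG where
  V1 : Type
  V2 : Type
  [f1 : Fintype V1]
  [f2 : Fintype V2]
  E : V1 → V2 → Prop

attribute [instance] BG.f1 BG.f2

/-- Number of class-preserving homomorphisms. -/
noncomputable def hom (H G : BG) : ℕ :=
  Nat.card {φ : (H.V1 → G.V1) × (H.V2 → G.V2) // ∀ a b, H.E a b → G.E (φ.1 a) (φ.2 b)}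

/-- Bipartite density. -/
noncomputable def tB (H G : BG) : ℝ :=
  (hom H G : ℝ) / ((Fintype.card G.V1 : ℝ) ^ Fintype.card H.V1 *
    (Fintype.card G.V2 : ℝ) ^ Fintype.card H.V2)

/-- Log-convergence. -/
def LogConvergent (G : ℕ → BG) : Prop :=
  ∀ H₁ H₂ : BG, (∃ a b, H₁.E a b) → (∃ a b, H₂.E a b) → ∃ c : ℝ,
    Tendsto (fun n => -Real.log (tB H₁ (G n)) / -Real.log (tB H₂ (G n))) atTop (𝓝 c)

/-- Incidence graph. -/
def inc (P L : Type) [Membership P L] [Fintype P] [Fintype L] : BG := ⟨P, L, fun p l => p ∈ l⟩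

def sumRel {α β : Type} (E : α → β → Prop) : α ⊕ β → α ⊕ β → Prop
  | .inl a, .inr b => E a b
  | .inr b, .inl a => E a b
  | _, _ => False

lemma bip {α β : Type} (E : α → β → Prop) : Bip Sum.isLeft (sumRel E) :=
  ⟨by rintro (a | a) (b | b) h <;> simp_all [sumRel], by rintro (a | a) (b | b) h <;> simp_all [sumRel]⟩

section
open Classical
variable (P L : Type) [Membership P L] [Fintype P] [Fintype L] [ProjectivePlane P L]

lemma cardP (l : L) : #{p : P | p ∈ l} = ProjectivePlane.order P L + 1 := by
  rw [← ProjectivePlane.pointCount_eq P l, pointCount, Nat.card_eq_fintype_card, Fintype.card_subtype]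

lemma cardL (p : P) : #{l : L | p ∈ l} = ProjectivePlane.order P L + 1 := by
  rw [← ProjectivePlane.lineCount_eq L p, lineCount, Nat.card_eq_fintype_card, Fintype.card_subtype]

noncomputable def toPl : Pl where
  W := P ⊕ L
  ty := Sum.isLeft
  A := sumRel fun p l => p ∈ l
  m := ProjectivePlane.order P L
  w0 := .inl (choose (ProjectivePlane.exists_config (P := P) (L := L)))
  hm := (ProjectivePlane.one_lt_order P L).le
  symm := (bip _).symm
  tyA := (bip _).ty
  cardT := fun t => by
    have h := ProjectivePlane.one_lt_order P L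
    have : #{w : P ⊕ L | w.isLeft = t} =
        ProjectivePlane.order P L ^ 2 + ProjectivePlane.order P L + 1 := by
      cases t
      · rw [← ProjectivePlane.card_lines P L, ← card_univ,
          ← card_map (Function.Embedding.inr (α := P) (β := L))]
        refine congrArg Finset.card ?_; ext (a | a) <;> simp
      · rw [← ProjectivePlane.card_points P L, ← card_univ,
          ← card_map (Function.Embedding.inl (α := P) (β := L))]
        refine congrArg Finset.card ?_; ext (a | a) <;> simp
    rw [this]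
    constructor <;> nlinarith
  cardN := fun a => by
    have h := ProjectivePlane.one_lt_order P L
    have : #{w : P ⊕ L | sumRel (fun (p : P) (l : L) => p ∈ l) a w} =
        ProjectivePlane.order P L + 1 := by
      rcases a with a | a
      · rw [← cardL P L a, ← card_map (Function.Embedding.inr (α := P) (β := L))]
        refine congrArg Finset.card ?_; ext (a | a) <;> simp [sumRel]
      · rw [← cardP P L a, ← card_map (Function.Embedding.inl (α := P) (β := L))]
        refine congrArg Finset.card ?_; ext (a | a) <;> simp [sumRel]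
    rw [this]
    omega
  ex := by
    rintro (a | a) (b | b) h
    · by_cases e : a = b
      · obtain ⟨l, hl⟩ := card_pos.1 ((Nat.succ_pos _).trans_eq (cardL P L a).symm)
        exact ⟨.inr l, (mem_filter.1 hl).2, e ▸ (mem_filter.1 hl).2⟩
      · exact ⟨.inr (HasLines.mkLine e), HasLines.mkLine_ax e⟩
    · simp at h
    · simp at h
    · by_cases e : a = b
      · obtain ⟨l, hl⟩ := card_pos.1 ((Nat.succ_pos _).trans_eq (cardP P L a).symm)
        exact ⟨.inl l, (mem_filter.1 hl).2, e ▸ (mem_filter.1 hl).2⟩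
      · exact ⟨.inl (HasPoints.mkPoint e), HasPoints.mkPoint_ax e⟩
  un := by
    rintro (a | a) (b | b) (c | c) (d | d) h h1 h2 h3 h4 <;> simp only [sumRel] at h1 h2 h3 h4
    · rcases Nondegenerate.eq_or_eq h1 h2 h3 h4 with e | e
      · exact absurd (congrArg _ e) h
      · rw [e]
    · rcases Nondegenerate.eq_or_eq h1 h3 h2 h4 with e | e
      · rw [e]
      · exact absurd (congrArg _ e) h

lemma bridge (H : BG) : hom H (inc P L) = #(Hom Sum.isLeft (sumRel H.E) (toPl P L) univ) := by
  rw [← Nat.card_eq_finsetCard]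
  refine Nat.card_eq_of_bijective (fun φ => ⟨Sum.map φ.1.1 φ.1.2, mem_Hom.2 ⟨?_, ?_, by simp⟩⟩)
    ⟨fun φ ψ e => ?_, fun ⟨f, hf⟩ => ?_⟩
  · rintro (a | a) - <;> rfl
  · rintro (a | a) - (b | b) - h
    · exact h.elim
    · exact φ.2 a b h
    · exact φ.2 b a h
    · exact h.elim
  · have := congrArg Subtype.val e
    refine Subtype.ext (Prod.ext (funext fun a => ?_) (funext fun a => ?_))
    · exact Sum.inl_injective (congrFun this (.inl a))
    · exact Sum.inr_injective (congrFun this (.inr a))
  · obtain ⟨h1, h2, -⟩ := mem_Hom.1 hf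
    choose g1 e1 using fun a => Sum.isLeft_iff.1 (h1 (.inl a) (mem_univ _))
    choose g2 e2 using fun a => Sum.isRight_iff.1 (Sum.isLeft_eq_false.1 (h1 (.inr a) (mem_univ _)))
    refine ⟨⟨(g1, g2), fun a b h => ?_⟩, Subtype.ext (funext ?_)⟩
    · have := h2 (.inl a) (mem_univ _) (.inr b) (mem_univ _) h
      rwa [e1, e2] at this
    · rintro (a | a)
      · exact (e1 a).symm
      · exact (e2 a).symm

lemma small (H : BG) {a : H.V1} {b : H.V2} (hab : H.E a b) :
    hom H (inc P L) * ProjectivePlane.order P L ≤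
      Fintype.card P ^ Fintype.card H.V1 * Fintype.card L ^ Fintype.card H.V2 := by
  have h1 := card_le_mul_card_image_of_maps_to (s := (univ : Finset ({φ : (H.V1 → P) × (H.V2 → L) //
      ∀ a b, H.E a b → φ.1 a ∈ φ.2 b} × P))) (t := univ)
    (f := fun z => (Function.update z.1.1.1 a z.2, z.1.1.2)) (fun _ _ => mem_univ _)
    (ProjectivePlane.order P L + 1) (fun ψ _ => by
      rw [← cardP P L (ψ.2 b)]
      refine card_le_card_of_injOn (fun z => z.1.1.1 a) (fun z hz => ?_) fun z hz w hw e => ?_
      · simp only [coe_filter, mem_univ, true_and, Set.mem_setOf_eq] at hz ⊢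
        rw [← hz]; exact z.1.2 a b hab
      · simp only [coe_filter, mem_univ, true_and, Set.mem_setOf_eq] at hz hw
        obtain ⟨k1, k2⟩ := Prod.mk.inj (hz.trans hw.symm)
        refine Prod.ext (Subtype.ext (Prod.ext (funext fun u => ?_) k2)) (by simpa using congrFun k1 a)
        by_cases hu : u = a
        · rw [hu]; exact e
        · simpa [hu] using congrFun k1 u)
  simp only [card_univ, Fintype.card_prod, Fintype.card_fun] at h1
  have h2 : hom H (inc P L) = Fintype.card {φ : (H.V1 → P) × (H.V2 → L) //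
      ∀ a b, H.E a b → φ.1 a ∈ φ.2 b} := Nat.card_eq_fintype_card
  rw [← h2] at h1
  have h3 := ProjectivePlane.card_points P L
  refine Nat.le_of_mul_le_mul_left (le_trans ?_ h1) (Nat.succ_pos _)
  rw [h3]
  nlinarith [Nat.zero_le (hom H (inc P L))]

end

lemma sq {m a : ℕ → ℕ} (hm : Tendsto m atTop atTop) {k C : ℕ}
    (h : ∀ n, m n ^ k ≤ a n ∧ a n ≤ C * m n ^ k) :
    Tendsto (fun n => Real.log (a n) / Real.log (m n)) atTop (𝓝 k) := by
  have hl : Tendsto (fun n => Real.log (m n)) atTop atTop :=
    Real.tendsto_log_atTop.comp (tendsto_natCast_atTop_atTop.comp hm)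
  have h1 : Tendsto (fun n => k + Real.log C / Real.log (m n)) atTop (𝓝 k) := by
    simpa using (hl.const_div_atTop (Real.log C)).const_add (k : ℝ)
  refine tendsto_of_tendsto_of_tendsto_of_le_of_le' tendsto_const_nhds h1 ?_ ?_
  · filter_upwards [hm.eventually_gt_atTop 1] with n hn
    have p0 : (1 : ℝ) < m n := by exact_mod_cast hn
    rw [le_div_iff₀ (Real.log_pos p0), ← Real.log_pow]
    exact Real.log_le_log (by positivity) (by exact_mod_cast (h n).1)
  · filter_upwards [hm.eventually_gt_atTop 1] with n hn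
    have p0 : (1 : ℝ) < m n := by exact_mod_cast hn
    have p1 : 0 < a n := (pow_pos (by omega) k).trans_le (h n).1
    have p2 : (C : ℝ) ≠ 0 := by
      have := p1.trans_le (h n).2
      exact_mod_cast (Nat.pos_of_mul_pos_right this).ne'
    rw [div_le_iff₀ (Real.log_pos p0), add_mul, div_mul_cancel₀ _ (Real.log_pos p0).ne',
      ← Real.log_pow, ← Real.log_mul (by positivity) p2, mul_comm]
    exact Real.log_le_log (by exact_mod_cast p1) (by exact_mod_cast (h n).2)

theorem result (P L : ℕ → Type) [∀ n, Membership (P n) (L n)] [∀ n, Fintype (P n)]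
    [∀ n, Fintype (L n)] [∀ n, ProjectivePlane (P n) (L n)]
    (h : Tendsto (fun n => ProjectivePlane.order (P n) (L n)) atTop atTop) :
    LogConvergent fun n => inc (P n) (L n) := by
  have key : ∀ H : BG, (∃ a b, H.E a b) → ∃ c : ℝ, 1 ≤ c ∧ Tendsto (fun n =>
      -Real.log (tB H (inc (P n) (L n))) / Real.log (ProjectivePlane.order (P n) (L n)))
      atTop (𝓝 c) := by
    rintro H ⟨a, b, hab⟩
    have : Nonempty (H.V1 ⊕ H.V2) := ⟨.inl a⟩
    obtain ⟨k, C, hk⟩ := total (bip H.E)
    have hk' := fun n => bridge (P n) (L n) H ▸ hk (toPl (P n) (L n))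
    have t1 := sq h hk'
    have hN : ∀ n, ProjectivePlane.order (P n) (L n) ^ 2 ≤ Fintype.card (P n) ∧
        Fintype.card (P n) ≤ 3 * ProjectivePlane.order (P n) (L n) ^ 2 := fun n => by
      have := ProjectivePlane.one_lt_order (P n) (L n)
      rw [ProjectivePlane.card_points (P n) (L n)]
      constructor <;> nlinarith
    have t2 := sq h hN
    have pos : ∀ n, (1 : ℝ) < ProjectivePlane.order (P n) (L n) := fun n => by
      exact_mod_cast ProjectivePlane.one_lt_order (P n) (L n)
    have p1 : ∀ n, (0 : ℝ) < hom H (inc (P n) (L n)) := fun n => by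
      exact_mod_cast (pow_pos (toPl (P n) (L n)).hm k).trans_le (hk' n).1
    have p2 : ∀ n, (0 : ℝ) < Fintype.card (P n) := fun n => by
      rw [ProjectivePlane.card_points (P n) (L n)]; positivity
    have t3 : Tendsto (fun n => -Real.log (tB H (inc (P n) (L n))) /
        Real.log (ProjectivePlane.order (P n) (L n))) atTop
        (𝓝 ((Fintype.card H.V1 + Fintype.card H.V2 : ℝ) * (2 : ℕ) - k)) := by
      refine ((t2.const_mul _).sub t1).congr fun n => ?_
      have := p2 n
      have ht : tB H (inc (P n) (L n)) = hom H (inc (P n) (L n)) /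
          ((Fintype.card (P n) : ℝ) ^ Fintype.card H.V1 *
            (Fintype.card (L n) : ℝ) ^ Fintype.card H.V2) := rfl
      rw [ht, ← ProjectivePlane.card_points_eq_card_lines (P n) (L n),
        Real.log_div (p1 n).ne' (by positivity), ← pow_add, Real.log_pow]
      push_cast
      ring
    refine ⟨_, ge_of_tendsto' t3 fun n => ?_, t3⟩
    have := p2 n
    have e := ProjectivePlane.card_points_eq_card_lines (P n) (L n)
    have q : (0 : ℝ) < (Fintype.card (P n) : ℝ) ^ Fintype.card H.V1 *
        (Fintype.card (L n) : ℝ) ^ Fintype.card H.V2 := by rw [← e]; positivity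
    rw [le_div_iff₀ (Real.log_pos (pos n)), one_mul, ← Real.log_inv]
    refine Real.log_le_log (by linarith [pos n]) ?_
    simp only [tB, inv_div]
    rw [le_div_iff₀ (p1 n), mul_comm]
    exact_mod_cast small (P n) (L n) H hab
  intro H₁ H₂ h1 h2
  obtain ⟨c1, -, t1⟩ := key H₁ h1
  obtain ⟨c2, a2, t2⟩ := key H₂ h2
  refine ⟨_, (t1.div t2 (by linarith)).congr fun n => ?_⟩
  have : (1 : ℝ) < ProjectivePlane.order (P n) (L n) := by
    exact_mod_cast ProjectivePlane.one_lt_order (P n) (L n)
  exact div_div_div_cancel_right₀ (Real.log_pos this).ne' _ _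

end Pool.Agent.Results.MP_4388f3_co.LogConv
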